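import Pool.Agent.Helper66.QJ.Dyn

/-!
# A decomposable Julia set is reducible between the critical point and the critical value (MP_a03adf_an)

PROOF. Let `J = A ∪ B` be a decomposition into proper subcontinua. If neither of them contains `0` and `c` then one of them,
say `A`, does not contain `c`; as `c` is on the frontier of the basin of infinity, `A` does not separate `c` from infinity,
so there is a continuous root `r` of `z - c` on `A` and the preimage of `A` is `A₁ ∪ -A₁`, `A₁ = r(A)`, a disjoint union.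
The preimage `B₁` of `B` is connected, symmetric, and contains `0`. If `c ∈ B₁` take `B₁`. Otherwise `c ∈ A₁`
after exchanging `A₁` and `-A₁`; the continuum `A₁ ∪ B₁` contains `0` and `c` but not `-c`.
-/

set_option autoImplicit false

open Set Topology Metric Bornology

namespace Pool.Agent.Helper41.AD

open Pool.Agent.Helper66.QJ

variable {c : ℂ}

theorem c_mem_J (h0 : (0 : ℂ) ∈ J c) : c ∈ J c := by
  have h1 := f_mem_J_iff.2 h0
  unfold f at h1
  simpa using h1

/-- a closed subset of `J` which does not contain the critical value does not separate it from infinity -/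
theorem exists_escape {A : Set ℂ} (hA : A ⊆ J c) (hAc : IsClosed A) {x : ℂ} (hx : x ∈ J c) (hxA : x ∉ A) :
    ∃ T : Set ℂ, IsClosed T ∧ IsPreconnected T ∧ ¬ IsBounded T ∧ x ∈ T ∧ Disjoint A T := by
  obtain ⟨ε, hε, hb⟩ := Metric.isOpen_iff.1 hAc.isOpen_compl x hxA
  have hx2 : x ∈ closure (K c)ᶜ := by
    have h1 : x ∈ frontier (K c) := hx
    rw [frontier_eq_closure_inter_closure] at h1
    exact h1.2
  obtain ⟨a, ha, hxa⟩ := Metric.mem_closure_iff.1 hx2 ε hε
  obtain ⟨E, hE, hEc, hEu, haE, hEK⟩ := exists_far ha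
  have hseg : segment ℝ x a ⊆ ball x ε :=
    (convex_ball x ε).segment_subset (mem_ball_self hε) (by rwa [mem_ball, dist_comm])
  refine ⟨segment ℝ x a ∪ E, ?_, ?_, ?_, Or.inl (left_mem_segment ℝ x a), ?_⟩
  · refine IsClosed.union ?_ hE
    rw [segment_eq_image_lineMap]
    exact (isCompact_Icc.image AffineMap.lineMap_continuous).isClosed
  · exact (convex_segment x a).isPreconnected.union a (right_mem_segment ℝ x a) haE hEc
  · exact fun h => hEu (h.subset subset_union_right)
  · rw [Set.disjoint_left]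
    rintro z hzA (hz | hz)
    · exact hb (hseg hz) hzA
    · exact Set.disjoint_left.1 hEK hz (J_sub_K c (hA hzA))

theorem reducible_aux (h0 : (0 : ℂ) ∈ J c) {A B : Set ℂ} (hA : A ⊆ J c) (hB : B ⊆ J c)
    (hBne : B ≠ J c) (hAc : IsCompact A) (hAcn : IsConnected A) (hBc : IsCompact B)
    (hBcn : IsConnected B) (hU : A ∪ B = J c) (hcA : c ∉ A) (hcB : c ∈ B) :
    ∃ T : Set ℂ, T ⊆ J c ∧ T ≠ J c ∧ IsCompact T ∧ IsPreconnected T ∧ (0 : ℂ) ∈ T ∧ c ∈ T := by
  have hcJ := c_mem_J h0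
  obtain ⟨T0, hT0, hT0c, hT0u, hcT0, hd⟩ := exists_escape hA hAc.isClosed hcJ hcA
  obtain ⟨r, hr, hr2⟩ := exists_sqrt hT0 hT0c hT0u hcT0 hAc hd
  have hfr : ∀ z ∈ A, f c (r z) = z := by
    intro z hz
    rw [f, hr2 z hz]
    ring
  have hf0 : f c 0 = c := by simp [f]
  have hB1J : f c ⁻¹' B ⊆ J c := fun z hz => f_mem_J_iff.1 (hB hz)
  have hB1c : IsPreconnected (f c ⁻¹' B) := preimage_conn0 hBcn.isPreconnected hcB
  have hB1 : IsCompact (f c ⁻¹' B) :=
    (isCompact_J c).of_isClosed_subset (hBc.isClosed.preimage (continuous_f c)) hB1J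
  have h0B : (0 : ℂ) ∈ f c ⁻¹' B := by
    show f c 0 ∈ B
    rw [hf0]
    exact hcB
  by_cases h1 : c ∈ f c ⁻¹' B
  · refine ⟨f c ⁻¹' B, hB1J, ?_, hB1, hB1c, h0B, h1⟩
    intro h
    apply hBne
    refine Subset.antisymm hB fun y hy => ?_
    obtain ⟨z, rfl⟩ := surj_f c y
    have hz : z ∈ f c ⁻¹' B := by
      rw [h]
      exact f_mem_J_iff.1 hy
    exact hz
  · -- the last step
    have fin : ∀ A2 : Set ℂ, IsCompact A2 → IsPreconnected A2 → A2 ⊆ J c →
        (∀ z ∈ A2, -z ∉ A2) → (A2 ∩ f c ⁻¹' B).Nonempty → c ∈ A2 →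
        ∃ T : Set ℂ, T ⊆ J c ∧ T ≠ J c ∧ IsCompact T ∧ IsPreconnected T ∧ (0 : ℂ) ∈ T ∧ c ∈ T := by
      intro A2 hA2 hA2c hA2J hdis hmeet hcA2
      refine ⟨A2 ∪ f c ⁻¹' B, union_subset hA2J hB1J, ?_, hA2.union hB1, ?_, Or.inr h0B, Or.inl hcA2⟩
      · intro h
        have h2 : -c ∈ A2 ∪ f c ⁻¹' B := by
          rw [h]
          exact neg_mem_J hcJ
        rcases h2 with h2 | h2
        · exact hdis c hcA2 h2
        · apply h1
          have h3 : f c (-c) ∈ B := h2
          rw [f_neg] at h3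
          exact h3
      · obtain ⟨y, hy1, hy2⟩ := hmeet
        exact hA2c.union y hy1 hy2 hB1c
    -- the preimage of `A`
    have hA1 : IsCompact (r '' A) := hAc.image_of_continuousOn hr
    have hA1c : IsPreconnected (r '' A) := hAcn.isPreconnected.image r hr
    have hA1J : r '' A ⊆ J c := by
      rintro _ ⟨x, hx, rfl⟩
      rw [← f_mem_J_iff, hfr x hx]
      exact hA hx
    have hdis : ∀ z ∈ r '' A, -z ∉ r '' A := by
      rintro _ ⟨x, hx, rfl⟩ ⟨y, hy, hxy⟩
      have h2 : x = y := by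
        rw [← hfr x hx, ← hfr y hy, hxy, f_neg]
      subst h2
      have h3 : r x = 0 := by
        have : (2 : ℂ) * r x = 0 := by linear_combination hxy
        simpa using this
      have h4 := hfr x hx
      rw [h3, hf0] at h4
      exact hcA (h4 ▸ hx)
    have hmeet : (r '' A ∩ f c ⁻¹' B).Nonempty := by
      have h2 := isPreconnected_closed_iff.1 (isPreconnected_J (J_sub_K c h0)) A B hAc.isClosed hBc.isClosed
        hU.symm.subset ?_ ?_
      · obtain ⟨x, -, hxA, hxB⟩ := h2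
        exact ⟨r x, ⟨x, hxA, rfl⟩, by
          show f c (r x) ∈ B
          rw [hfr x hxA]
          exact hxB⟩
      · obtain ⟨x, hx⟩ := hAcn.nonempty
        exact ⟨x, hA hx, hx⟩
      · obtain ⟨x, hx⟩ := hBcn.nonempty
        exact ⟨x, hB hx, hx⟩
    have hc1 : c ∈ r '' A ∨ -c ∈ r '' A := by
      have h2 : f c c ∈ A := by
        have h3 : f c c ∈ A ∪ B := by
          rw [hU]
          exact f_mem_J_iff.2 hcJ
        exact h3.resolve_right h1
      have h3 : f c (r (f c c)) = f c c := hfr _ h2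
      rcases f_eq_iff.1 h3 with h4 | h4
      · exact Or.inl ⟨_, h2, h4⟩
      · exact Or.inr ⟨_, h2, h4⟩
    rcases hc1 with hc1 | hc1
    · exact fin _ hA1 hA1c hA1J hdis hmeet hc1
    · refine fin ((fun z : ℂ => -z) '' (r '' A)) (hA1.image continuous_neg)
        (hA1c.image _ continuous_neg.continuousOn) ?_ ?_ ?_ ⟨-c, hc1, neg_neg c⟩
      · rintro _ ⟨z, hz, rfl⟩
        exact neg_mem_J (hA1J hz)
      · rintro _ ⟨z, hz, rfl⟩ ⟨w, hw, hwz⟩
        have h2 : w = -z := by
          have : -w = - -z := hwz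
          exact neg_injective this
        exact hdis z hz (h2 ▸ hw)
      · obtain ⟨y, hy1, hy2⟩ := hmeet
        refine ⟨-y, ⟨y, hy1, rfl⟩, ?_⟩
        show f c (-y) ∈ B
        rw [f_neg]
        exact hy2

/-- If the Julia set is decomposable then a proper subcontinuum contains the critical point and the critical value. -/
theorem reducible_of_dec (h0 : (0 : ℂ) ∈ J c) (hD : Dec (J c)) :
    ∃ T : Set ℂ, T ⊆ J c ∧ T ≠ J c ∧ IsCompact T ∧ IsPreconnected T ∧ (0 : ℂ) ∈ T ∧ c ∈ T := by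
  obtain ⟨A, B, hA, hB, hAne, hBne, hAc, hAcn, hBc, hBcn, hU⟩ := hD
  have hcJ := c_mem_J h0
  by_cases hcA : c ∈ A
  · by_cases hcB : c ∈ B
    · have h1 : (0 : ℂ) ∈ A ∪ B := by
        rw [hU]
        exact h0
      rcases h1 with h1 | h1
      · exact ⟨A, hA, hAne, hAc, hAcn.isPreconnected, h1, hcA⟩
      · exact ⟨B, hB, hBne, hBc, hBcn.isPreconnected, h1, hcB⟩
    · exact reducible_aux h0 hB hA hAne hBc hBcn hAc hAcn (by rwa [union_comm]) hcB hcA
  · have hcB : c ∈ B := by
      have h1 : c ∈ A ∪ B := by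
        rw [hU]
        exact hcJ
      exact h1.resolve_left hcA
    exact reducible_aux h0 hA hB hBne hAc hAcn hBc hBcn hU hcA hcB

theorem exists_T (h0 : (0 : ℂ) ∈ J c) (hD : Dec (J c)) :
    ∃ T : Set ℂ, IsCompact T ∧ IsPreconnected T ∧ T ⊆ J c ∧ T ≠ J c ∧ (0 : ℂ) ∈ T ∧ c ∈ T := by
  obtain ⟨T, h1, h2, h3, h4, h5, h6⟩ := reducible_of_dec h0 hD
  exact ⟨T, h3, h4, h1, h2, h5, h6⟩

end Pool.Agent.Helper41.AD
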